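import Pool.Agent.Y217.PB.Chi2

/-!
# Tight substantial closed surfaces in `ℝ^N`, `N ≥ 6`: Pohl's inequality and the equality case

Positive answer to Q2 (Pohl's conjecture). The definitions `TightSurf`, `CechTightSurf` are in
`Pool/Agent/Helper775/Surf/TDefs.lean`, `Substantial` is in
`Pool/Agent/Helper775/Tight/SingDefs.lean`, `b1` (singular homology mod 2) and `chi` are in
`Pool/Agent/Y217/PB/Chi2.lean`. Surfaces are Mathlib's
compact connected Hausdorff spaces with an atlas modelled on the Euclidean plane.

Idea. The convex hull `K` is a polytope (Q1, the starting result). Every vertex of `K` has one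
preimage, every edge of `K` has a connected acyclic preimage which contains an arc. The preimages
of all edges form a graph `G` in `M`; at most two components of `M ∖ G` touch an edge, and every
component touches at least three, so the Euler inequality
`#edges + 2 ≤ b₁ + #vertices + #components` and `#components ≤ (2/3) #edges` give
`#edges + 6 ≤ 3 b₁ + 3 #vertices`; as every vertex of `K` has degree at least `N`, and as there are
at least `N + 1` vertices, the inequality follows. In the equality case all degrees are `N`, all
facets turn out to be simplices, `K` is a simplex and the surface consists of triangles.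
-/

set_option autoImplicit false

namespace Pool.Agent.Results.MP_beb0a3_gt.PohlInequality

open Pool.Agent.Helper775.Tight Pool.Agent.Helper775.Surf Pool.Agent.Y217.PB
open scoped Manifold Topology

/-- Let `M` be a compact connected surface without boundary, `N ≥ 6`, and let `f : M → ℝ^N`
be a topological immersion (continuous and locally injective) which is substantial and tight
(singular homology mod 2, or Čech theory mod 2). Then `C(N - 2, 2) ≤ 3 (2 - χ(M))`, and equality
holds if and only if `f` is injective and its image is a union of two-dimensional faces of an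
`N`-simplex. -/
theorem result {M : Type*} [TopologicalSpace M] [CompactSpace M] [T2Space M] [ConnectedSpace M]
    [ChartedSpace (EuclideanSpace ℝ (Fin 2)) M] {N : ℕ}
    (hN : 6 ≤ N) (f : M → EuclideanSpace ℝ (Fin N)) (hf : Continuous f)
    (hloc : ∀ x, ∃ U ∈ 𝓝 x, Set.InjOn f U) (hs : Substantial f)
    (ht : TightSurf f ∨ CechTightSurf f) :
    ((N - 2).choose 2 : ℤ) ≤ 3 * (2 - chi M) ∧
    (((N - 2).choose 2 : ℤ) = 3 * (2 - chi M) ↔
      Function.Injective f ∧ ∃ (a : Fin (N + 1) → EuclideanSpace ℝ (Fin N))
        (T : Set (Finset (Fin (N + 1)))), AffineIndependent ℝ a ∧ (∀ t ∈ T, t.card = 3) ∧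
        Set.range f = ⋃ t ∈ T, convexHull ℝ (a '' (t : Set (Fin (N + 1))))) :=
  Pool.Agent.Y217.PB.mainChi hN f hf hloc hs ht

end Pool.Agent.Results.MP_beb0a3_gt.PohlInequality
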